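import Pool.Agent.helper94.SCT.Spec
import Pool.Agent.helper13.LD.E2
import Pool.Agent.helper85.LD.G1

/-!
# Row LDB of project SCT: the logarithmic derivative of zeta where there are no zeros nearby
-/

set_option autoImplicit false

namespace Pool.Agent.SCT

open Filter MeasureTheory Complex Metric Pool.Agent.helper6.LD

private lemma LDB_summable (r : ℝ) (h0 : 0 ≤ r) (h1 : r < 1) :
    Summable fun k : ℕ => ((k + 1 : ℕ) : ℝ) ^ 2 * r ^ k := by
  have hr : ‖r‖ < 1 := by
    rw [Real.norm_eq_abs, abs_of_nonneg h0]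
    exact h1
  have h2 := summable_pow_mul_geometric_of_norm_lt_one 2 hr
  have h3 := summable_pow_mul_geometric_of_norm_lt_one 1 hr
  have h4 := summable_pow_mul_geometric_of_norm_lt_one 0 hr
  refine ((h2.add (h3.mul_left 2)).add h4).congr fun k => ?_
  push_cast
  ring

theorem LDB : LDB_stmt := by
  intro δ hδ hδ1
  obtain ⟨C1, hC1, hgr⟩ := zeta_growth
  set K : ℝ := 1 + |Real.log (16 * C1)| with hK
  have hK0 : 0 < K := by positivity
  set q : ℝ := 1 - δ / 2 with hq
  have hq0 : 0 < q := by rw [hq]; linarith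
  have hq1 : q < 1 := by rw [hq]; linarith
  set S : ℝ := ∑' k : ℕ, ((k + 1 : ℕ) : ℝ) ^ 2 * q ^ k with hS
  have hSs := LDB_summable q hq0.le hq1
  have hS0 : 0 ≤ S := tsum_nonneg fun k => by positivity
  refine ⟨6 * K * S + 1, by positivity, ?_⟩
  intro a τ ha ha1 hτ hZ σ hσ hσ2
  have ht0 : 0 < τ := by linarith
  set R : ℝ := 1 + a with hR
  have hR1 : 1 ≤ R := by rw [hR]; linarith
  have hR2 : R ≤ 3 / 2 := by rw [hR]; linarith
  have hR0 : 0 < R := by linarith
  set c : ℂ := ((2 : ℝ) : ℂ) + (τ : ℂ) * I with hc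
  have hcre : c.re = 2 := by simp [hc]
  have hcim : c.im = τ := by simp [hc]
  have hball : ∀ z ∈ ball c R, 1 - a < z.re ∧ z.re < 4 ∧ τ - 3 / 2 < z.im ∧ z.im < τ + 3 / 2 := by
    intro z hz
    rw [mem_ball_iff_norm] at hz
    have h1 := (Complex.abs_re_le_norm (z - c)).trans_lt hz
    have h2 := (Complex.abs_im_le_norm (z - c)).trans_lt hz
    rw [Complex.sub_re, hcre, abs_lt] at h1
    rw [Complex.sub_im, hcim, abs_lt] at h2
    refine ⟨by linarith, by linarith, by linarith, by linarith⟩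
  have hL1 : 1 ≤ Real.log τ := by
    rw [Real.le_log_iff_exp_le ht0]
    have := Real.exp_one_lt_d9
    linarith
  set B : ℝ := K * Real.log τ with hB
  have hB0 : 0 < B := by positivity
  have hne : ∀ z ∈ ball c R, z ≠ 1 := by
    intro z hz h
    have h1 := (hball z hz).2.2.1
    rw [h, Complex.one_im] at h1
    linarith
  have hg : AnalyticOnNhd ℂ riemannZeta (ball c R) := by
    have hU : IsOpen ({1}ᶜ : Set ℂ) := isOpen_compl_singleton
    have hd : DifferentiableOn ℂ riemannZeta ({1}ᶜ : Set ℂ) := fun s hs =>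
      (differentiableAt_riemannZeta hs).differentiableWithinAt
    exact (hd.analyticOnNhd hU).mono fun s hs h1 => hne s hs h1
  have h0 : ∀ z ∈ ball c R, riemannZeta z ≠ 0 := by
    intro z hz h
    obtain ⟨h1, _, h2, h3⟩ := hball z hz
    have h4 := hZ z h h1.le
    have h5 : |z.im - τ| < 2 := by
      rw [abs_lt]
      constructor
      · linarith
      · linarith
    linarith
  have hfc : 1 / 4 ≤ ‖riemannZeta c‖ := zeta_lower (by rw [hcre])
  have hBexp : 16 * C1 * τ ≤ Real.exp B := by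
    rw [← Real.log_le_iff_le_exp (by positivity), Real.log_mul (by positivity) ht0.ne', hB, hK,
      add_mul, one_mul]
    have h2 := le_abs_self (Real.log (16 * C1))
    have h3 : |Real.log (16 * C1)| * 1 ≤ |Real.log (16 * C1)| * Real.log τ :=
      mul_le_mul_of_nonneg_left hL1 (abs_nonneg _)
    linarith
  have hb : ∀ z ∈ ball c R, ‖riemannZeta z‖ ≤ Real.exp B * ‖riemannZeta c‖ := by
    intro z hz
    obtain ⟨h1, h2, h3, h4⟩ := hball z hz
    have h5 := hgr z (by linarith) (by rw [abs_of_nonneg (by linarith)]; linarith)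
    have h6 : ‖z‖ ≤ 4 * τ := by
      refine (Complex.norm_le_abs_re_add_abs_im z).trans ?_
      rw [abs_of_nonneg (by linarith : (0 : ℝ) ≤ z.re), abs_of_nonneg (by linarith : (0 : ℝ) ≤ z.im)]
      linarith
    calc ‖riemannZeta z‖ ≤ C1 * ‖z‖ := h5
      _ ≤ C1 * (4 * τ) := by gcongr
      _ = (16 * C1 * τ) * (1 / 4) := by ring
      _ ≤ Real.exp B * ‖riemannZeta c‖ := by gcongr
  set z : ℂ := (σ : ℂ) + (τ : ℂ) * I with hz
  have hzc : z - c = ((σ - 2 : ℝ) : ℂ) := by
    rw [hz, hc]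
    push_cast
    ring
  have hnz : ‖z - c‖ = 2 - σ := by
    rw [hzc, Complex.norm_real, Real.norm_eq_abs, abs_of_nonpos (by linarith)]
    ring
  have hzR : ‖z - c‖ ≤ R - δ := by
    rw [hnz, hR]
    linarith
  have hzb : z ∈ ball c R := by
    rw [mem_ball_iff_norm]
    linarith
  refine ⟨h0 z hzb, ?_⟩
  have hd : DifferentiableOn ℂ (logDeriv riemannZeta) (ball c R) := by
    intro w hw
    have h1 : AnalyticAt ℂ (logDeriv riemannZeta) w := by
      have h2 : AnalyticAt ℂ (fun s => deriv riemannZeta s / riemannZeta s) w :=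
        (hg w hw).deriv.div (hg w hw) (h0 w hw)
      exact h2
    exact h1.differentiableAt.differentiableWithinAt
  have hT := Complex.hasSum_taylorSeries_on_ball hd hzb
  rw [← hT.tsum_eq]
  have hterm : ∀ k : ℕ, ‖((k.factorial : ℂ))⁻¹ • (z - c) ^ k • iteratedDeriv k (logDeriv riemannZeta) c‖ ≤
      6 * B * (((k + 1 : ℕ) : ℝ) ^ 2 * q ^ k) := by
    intro k
    have hco := coeff_bound hR0 hB0 hg h0 hb (k := k + 1) (by omega)
    rw [Nat.add_sub_cancel] at hco
    have h1 : ((k.factorial : ℂ))⁻¹ • (z - c) ^ k • iteratedDeriv k (logDeriv riemannZeta) c =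
        (z - c) ^ k * (iteratedDeriv k (logDeriv riemannZeta) c / (k.factorial : ℂ)) := by
      rw [smul_eq_mul, smul_eq_mul]
      ring
    rw [h1, norm_mul, norm_pow]
    have h2 : ‖z - c‖ ^ k * (R ^ (k + 1))⁻¹ ≤ q ^ k := by
      have h3 : ‖z - c‖ ≤ q * R := by
        refine hzR.trans ?_
        rw [hq]
        nlinarith
      calc ‖z - c‖ ^ k * (R ^ (k + 1))⁻¹ ≤ (q * R) ^ k * (R ^ k)⁻¹ := by
            gcongr
            omega
        _ = q ^ k := by
            rw [mul_pow, mul_assoc, mul_inv_cancel₀ (by positivity), mul_one]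
    calc ‖z - c‖ ^ k * ‖iteratedDeriv k (logDeriv riemannZeta) c / (k.factorial : ℂ)‖
        ≤ ‖z - c‖ ^ k * (6 * B * ((k + 1 : ℕ) : ℝ) ^ 2 * (R ^ (k + 1))⁻¹) := by gcongr
      _ = 6 * B * ((k + 1 : ℕ) : ℝ) ^ 2 * (‖z - c‖ ^ k * (R ^ (k + 1))⁻¹) := by ring
      _ ≤ 6 * B * ((k + 1 : ℕ) : ℝ) ^ 2 * q ^ k := by gcongr
      _ = 6 * B * (((k + 1 : ℕ) : ℝ) ^ 2 * q ^ k) := by ring
  have hfin : ‖∑' k : ℕ, ((k.factorial : ℂ))⁻¹ • (z - c) ^ k • iteratedDeriv k (logDeriv riemannZeta) c‖ ≤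
      6 * B * S :=
    tsum_of_norm_bounded (hSs.hasSum.mul_left (6 * B)) hterm
  refine hfin.trans ?_
  rw [hB]
  nlinarith [hS0, hK0, hL1]

end Pool.Agent.SCT
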